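import Pool.Agent.H37.CTT.Stmts
import Pool.Agent.H31.CTO.P33

/-!
# Row SC7 of the board `ctt`: no proper stable subspace contains `e_0` (cover (I))

The product of the `x_u`, `u ∈ U`, `u ≠ 0`, is a constant, so the sum of the orders is `0`, which
gives `q ^ 2 (|U ∩ W| - 1) = |U| - |U ∩ W|`, `W = ⟨e_0, e_1⟩`, so `|U| = q ^ 4`.
-/

set_option autoImplicit false

namespace Pool.CND

open Finset Polynomial

namespace SC7a

/-- powers of `q`: the only solution is `i = 2`, `j = 4` -/
theorem pow_sol {q i j : ℕ} (hq : 2 ≤ q) (hi1 : 1 ≤ i) (hi2 : i ≤ 2)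
    (h : q ^ j + q ^ 2 = q ^ 2 * q ^ i + q ^ i) : j = 4 := by
  obtain rfl | rfl : i = 1 ∨ i = 2 := by omega
  · exfalso
    rw [pow_one] at h
    rcases Nat.lt_or_ge j 3 with hj | hj
    · have h1 : q ^ j ≤ q ^ 2 := Nat.pow_le_pow_right (by omega) (by omega)
      obtain ⟨r, rfl⟩ : ∃ r, q = r + 2 := ⟨q - 2, by omega⟩
      rcases Nat.eq_zero_or_pos r with hr | hr
      · subst hr
        have h2 : (0 + 2) ^ j = 6 := by omega
        have h3 : j = 0 ∨ j = 1 ∨ j = 2 := by omega
        rcases h3 with rfl | rfl | rfl <;> simp at h2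
      · nlinarith [Nat.zero_le (r ^ 2), Nat.zero_le (r ^ 3)]
    · have h1 : q ^ 3 ≤ q ^ j := Nat.pow_le_pow_right (by omega) hj
      nlinarith
  · have h1 : q ^ j = q ^ 4 := by
      have : q ^ 2 * q ^ 2 = q ^ 4 := by ring
      omega
    exact Nat.pow_right_injective hq h1

end SC7a

open P33a SC7a in
theorem sc7_thm : S_SC7 := by
  intro p k F L _ _ _ _ _ _ f q t X G₀ ρ P hp hp2 hchar hf hq hF hR hC hO U hU he0
  classical
  have hfin : Finite F := by
    apply Nat.finite_of_card_ne_zero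
    rw [hF, hq]
    exact (pow_pos hp.pos f).ne'
  have := Fintype.ofFinite F
  have hp3 : 3 ≤ p := by
    have := hp.two_le
    omega
  have hq3 : 3 ≤ q := by
    rw [hq]
    calc 3 ≤ p := hp3
      _ = p ^ 1 := (pow_one p).symm
      _ ≤ p ^ f := Nat.pow_le_pow_right hp.pos hf
  have hqz : (3 : ℤ) ≤ (q : ℤ) := by exact_mod_cast hq3
  have hchL : CharP L p := charP_of_injective_algebraMap (algebraMap k L).injective p
  have hcst : ∀ c : F, cst k F L c ^ q = cst k F L c := by
    intro c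
    unfold cst
    rw [← map_pow, ← map_pow]
    congr 2
    rw [← hF, Nat.card_eq_fintype_card]
    exact FiniteField.pow_card c
  have hrelX : ∀ i, X i ^ q ^ 4 + (-1) * X i ^ q ^ 3 + (-t) * X i ^ q ^ 2 + (-1) * X i ^ q +
      X i = 0 := by
    intro i
    have h := hR.rel i
    rw [one_pow] at h
    linear_combination h
  have hpow : ∀ m (u : Fin 4 → F), xv k X u ^ q ^ m =
      ∑ i, cst k F L (u i) * X i ^ q ^ m := by
    intro m u
    unfold xv
    rw [FN1.pow_sum hp hq]
    refine sum_congr rfl fun i _ => ?_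
    rw [mul_pow, FN1.pow_cst (hcst (u i))]
  have hrel : ∀ u : Fin 4 → F, xv k X u ^ q ^ 4 + (-1) * xv k X u ^ q ^ 3 +
      (-t) * xv k X u ^ q ^ 2 + (-1) * xv k X u ^ q + xv k X u = 0 := by
    intro u
    have h1 := hpow 1 u
    simp only [pow_one] at h1
    rw [hpow 4, hpow 3, hpow 2, h1, mul_sum, mul_sum, mul_sum]
    unfold xv
    rw [← sum_add_distrib, ← sum_add_distrib, ← sum_add_distrib, ← sum_add_distrib]
    refine sum_eq_zero fun i _ => ?_
    linear_combination (cst k F L (u i)) * hrelX i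
  have h14 : q < q ^ 4 := by
    calc q = q ^ 1 := (pow_one q).symm
      _ < q ^ 4 := Nat.pow_lt_pow_right (by omega) (by omega)
  have h12 : q < q ^ 2 := by
    calc q = q ^ 1 := (pow_one q).symm
      _ < q ^ 2 := Nat.pow_lt_pow_right (by omega) (by omega)
  have h23 : q ^ 2 < q ^ 3 := Nat.pow_lt_pow_right (by omega) (by omega)
  have h34 : q ^ 3 < q ^ 4 := Nat.pow_lt_pow_right (by omega) (by omega)
  have hdeg : ∀ (R : Type) [CommRing R] (a b c : R),
      (C a * Polynomial.X ^ q ^ 3 + C b * Polynomial.X ^ q ^ 2 + C c * Polynomial.X ^ q +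
        Polynomial.X : Polynomial R).degree < ((q ^ 4 : ℕ) : WithBot ℕ) := by
    intro R _ a b c
    refine lt_of_le_of_lt (degree_add_le _ _) (max_lt ?_ ?_)
    · refine lt_of_le_of_lt (degree_add_le _ _) (max_lt ?_ ?_)
      · refine lt_of_le_of_lt (degree_add_le _ _) (max_lt ?_ ?_)
        · exact lt_of_le_of_lt (degree_C_mul_X_pow_le _ _) (by exact_mod_cast h34)
        · exact lt_of_le_of_lt (degree_C_mul_X_pow_le _ _) (by exact_mod_cast h23.trans h34)
      · exact lt_of_le_of_lt (degree_C_mul_X_pow_le _ _) (by exact_mod_cast h14)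
    · refine lt_of_le_of_lt degree_X_le ?_
      have h3 : 1 < q ^ 4 := by omega
      exact_mod_cast h3
  -- integrality
  have hint : ∀ u : Fin 4 → F,
      (aeval t : Polynomial k →ₐ[k] L).toRingHom.IsIntegralElem (xv k X u) := by
    intro u
    refine ⟨Polynomial.X ^ q ^ 4 + (C (-1) * Polynomial.X ^ q ^ 3 +
      C (-Polynomial.X) * Polynomial.X ^ q ^ 2 + C (-1) * Polynomial.X ^ q + Polynomial.X),
      ?_, ?_⟩
    · exact monic_X_pow_add (hdeg _ _ _ _)
    · have h := hrel u
      simp only [eval₂_add, eval₂_mul, eval₂_pow, eval₂_X, eval₂_C]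
      rw [← h]
      simp only [AlgHom.toRingHom_eq_coe, RingHom.coe_coe, map_neg, map_one, aeval_X]
      ring
  -- products over stable sets
  have hmem : ∀ S : Finset (Fin 4 → F), (∀ g ∈ G₀, ∀ u ∈ S, g.1.mulVec u ∈ S) →
      ∃ R : Polynomial k, ∏ u ∈ S, xv k X u = aeval t R := by
    intro S hS
    refine T33a.int_poly hR.tr ((hC.cov.fixed _).1 fun g => prod_fix hC S hS g) ?_
    let _ : Algebra (Polynomial k) L := (aeval t : Polynomial k →ₐ[k] L).toRingHom.toAlgebra
    have h : ∀ u ∈ S, IsIntegral (Polynomial k) (xv k X u) := fun u _ => hint u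
    exact IsIntegral.prod _ h
  -- the product of the nonzero roots
  have hprod : ∏ u ∈ univ.erase (0 : Fin 4 → F), (-xv k X u) = 1 := by
    refine prod_roots (N := q ^ 4) (xv k X) (xv_inj hR.ind) ?_ 0 ?_
      (Polynomial.X ^ q ^ 4 + (C (-1) * Polynomial.X ^ q ^ 3 +
        C (-t) * Polynomial.X ^ q ^ 2 + C (-1) * Polynomial.X ^ q + Polynomial.X)) ?_ ?_ ?_ ?_
    · rw [Fintype.card_fun, Fintype.card_fin, ← hF, Nat.card_eq_fintype_card]
    · unfold xv
      simp [cst]
    · exact monic_X_pow_add (hdeg _ _ _ _)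
    · refine natDegree_eq_of_degree_eq_some ?_
      rw [degree_add_eq_left_of_degree_lt]
      · exact degree_X_pow _
      · rw [degree_X_pow]
        exact hdeg _ _ _ _
    · simp only [coeff_add, coeff_C_mul, coeff_X_pow, coeff_X]
      rw [if_neg (by omega), if_neg (by omega), if_neg (by omega), if_neg (by omega)]
      simp
    · intro u
      have h := hrel u
      simp only [eval_add, eval_mul, eval_pow, eval_X, eval_C]
      rw [← h]
      ring
  have hprod2 : ∏ u ∈ univ.erase (0 : Fin 4 → F), xv k X u = 1 := by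
    rw [← hprod]
    refine Finset.prod_nbij' (fun u => -u) (fun u => -u) ?_ ?_ ?_ ?_ ?_
    · intro u hu
      simpa using hu
    · intro u hu
      simpa using hu
    · intro u _
      exact neg_neg u
    · intro u _
      exact neg_neg u
    · intro u _
      rw [xv_neg, neg_neg]
  -- the two sets
  have hinv : ∀ g ∈ G₀, ∀ u : Fin 4 → F,
      (g⁻¹).1.mulVec (g.1.mulVec u) = u := by
    intro g _ u
    have h : (g⁻¹).1 * g.1 = 1 := by
      have h1 : ((g⁻¹ * g) : Matrix.SpecialLinearGroup (Fin 4) F).1 = 1 := by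
        rw [inv_mul_cancel]
        rfl
      exact h1
    rw [Matrix.mulVec_mulVec, h, Matrix.one_mulVec]
  obtain ⟨R₁, hR₁⟩ := hmem (univ.filter fun u => u ∈ U ∧ u ≠ 0) (by
    intro g hg u hu
    simp only [mem_filter, mem_univ, true_and] at hu ⊢
    refine ⟨hU g hg u hu.1, fun h => hu.2 ?_⟩
    rw [← hinv g hg u, h, Matrix.mulVec_zero])
  obtain ⟨R₂, hR₂⟩ := hmem (univ.filter fun u => u ∉ U) (by
    intro g hg u hu
    simp only [mem_filter, mem_univ, true_and] at hu ⊢
    intro h
    apply hu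
    rw [← hinv g hg u]
    exact hU g⁻¹ (G₀.inv_mem hg) _ h)
  have hmul : R₁ * R₂ = C 1 := by
    have hinj : Function.Injective (aeval t : Polynomial k →ₐ[k] L) :=
      transcendental_iff_injective.1 hR.tr
    apply hinj
    rw [map_mul, ← hR₁, ← hR₂, C_1, map_one, ← hprod2, ← prod_union]
    · refine prod_congr ?_ fun _ _ => rfl
      ext u
      simp only [mem_union, mem_filter, mem_univ, true_and, mem_erase, and_true]
      constructor
      · rintro (h | h)
        · exact h.2
        · rintro rfl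
          exact h U.zero_mem
      · intro h
        by_cases h1 : u ∈ U
        · exact Or.inl ⟨h1, h⟩
        · exact Or.inr h1
    · rw [disjoint_left]
      intro u h1 h2
      simp only [mem_filter, mem_univ, true_and] at h1 h2
      exact h2 h1.1
  obtain ⟨σ, hσ, hσ2⟩ := T33a.unit_C (one_ne_zero) hmul
  have hord : P.ord (∏ u ∈ univ.filter (fun u : Fin 4 → F => u ∈ U ∧ u ≠ 0), xv k X u) = 0 := by
    rw [hR₁, hσ2, aeval_C]
    exact P.ord_const σ hσ
  rw [ord_prod P _ _ (fun u hu => xv_ne hR.ind (by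
    simp only [mem_filter, mem_univ, true_and] at hu
    exact hu.2))] at hord
  -- the orders
  have hN : ∀ u : Fin 4 → F, u ≠ 0 → (q : ℤ) ^ 2 * ((q : ℤ) ^ 2 - 1) * P.ord (xv k X u) =
      (if u 2 = 0 ∧ u 3 = 0 then (q : ℤ) ^ 2 else -1) * (-P.ord t) := by
    intro u hu
    by_cases h : u 2 = 0 ∧ u 3 = 0
    · rw [if_pos h]
      have h1 : u 0 ≠ 0 ∨ u 1 ≠ 0 := by
        by_contra hcon
        push Not at hcon
        apply hu
        funext i
        fin_cases i
        · exact hcon.1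
        · exact hcon.2
        · exact h.1
        · exact h.2
      have h2 : ((q : ℤ) ^ 2 - 1) * P.ord (xv k X u) = -P.ord t := hO.small u h.1 h.2 h1
      linear_combination (q : ℤ) ^ 2 * h2
    · rw [if_neg h]
      have h1 : u 2 ≠ 0 ∨ u 3 ≠ 0 := by
        by_contra hcon
        push Not at hcon
        exact h hcon
      have h2 : (q : ℤ) ^ 2 * ((q : ℤ) ^ 2 - 1) * P.ord (xv k X u) = P.ord t := hO.top u h1
      linear_combination h2
  have hsum : ∑ u ∈ univ.filter (fun u : Fin 4 → F => u ∈ U ∧ u ≠ 0),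
      (if u 2 = 0 ∧ u 3 = 0 then (q : ℤ) ^ 2 else -1) = 0 := by
    have h1 : (∑ u ∈ univ.filter (fun u : Fin 4 → F => u ∈ U ∧ u ≠ 0),
        (if u 2 = 0 ∧ u 3 = 0 then (q : ℤ) ^ 2 else -1)) * (-P.ord t) = 0 := by
      rw [sum_mul]
      have h2 : ∑ u ∈ univ.filter (fun u : Fin 4 → F => u ∈ U ∧ u ≠ 0),
          (if u 2 = 0 ∧ u 3 = 0 then (q : ℤ) ^ 2 else -1) * (-P.ord t) =
          ∑ u ∈ univ.filter (fun u : Fin 4 → F => u ∈ U ∧ u ≠ 0),
            (q : ℤ) ^ 2 * ((q : ℤ) ^ 2 - 1) * P.ord (xv k X u) := by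
        refine sum_congr rfl fun u hu => ?_
        simp only [mem_filter, mem_univ, true_and] at hu
        exact (hN u hu.2).symm
      rw [h2, ← mul_sum, hord, mul_zero]
    rcases mul_eq_zero.1 h1 with h | h
    · exact h
    · exfalso
      have := hO.neg
      linarith
  -- the subspaces
  obtain ⟨W, hW⟩ : ∃ W : Submodule F (Fin 4 → F), ∀ u, u ∈ W ↔ u 2 = 0 ∧ u 3 = 0 :=
    ⟨{ carrier := {u | u 2 = 0 ∧ u 3 = 0}
       add_mem' := by
        rintro a b ⟨h1, h2⟩ ⟨h3, h4⟩
        exact ⟨by simp [h1, h3], by simp [h2, h4]⟩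
       zero_mem' := ⟨rfl, rfl⟩
       smul_mem' := by
        rintro c a ⟨h1, h2⟩
        exact ⟨by simp [h1], by simp [h2]⟩ }, fun u => Iff.rfl⟩
  have hcF : Fintype.card F = q := by rw [← hF, Nat.card_eq_fintype_card]
  have hcU : Fintype.card U = q ^ Module.finrank F U := by
    rw [Module.card_eq_pow_finrank (K := F) (V := U), hcF]
  have hcUW : Fintype.card (U ⊓ W : Submodule F (Fin 4 → F)) =
      q ^ Module.finrank F (U ⊓ W : Submodule F (Fin 4 → F)) := by
    rw [Module.card_eq_pow_finrank (K := F) (V := (U ⊓ W : Submodule F (Fin 4 → F))), hcF]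
  have hle : Fintype.card (U ⊓ W : Submodule F (Fin 4 → F)) ≤ q ^ 2 := by
    have h1 : Fintype.card (U ⊓ W : Submodule F (Fin 4 → F)) ≤ Fintype.card (F × F) := by
      refine Fintype.card_le_of_injective (fun u => (u.1 0, u.1 1)) ?_
      rintro ⟨u, hu⟩ ⟨v, hv⟩ h
      simp only [Prod.mk.injEq] at h
      have hu2 := (hW u).1 hu.2
      have hv2 := (hW v).1 hv.2
      apply Subtype.ext
      funext i
      fin_cases i
      · exact h.1
      · exact h.2
      · exact hu2.1.trans hv2.1.symm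
      · exact hu2.2.trans hv2.2.symm
    rw [Fintype.card_prod, hcF, ← sq] at h1
    exact h1
  have he0W : (Pi.single 0 1 : Fin 4 → F) ∈ U ⊓ W := by
    refine ⟨he0, (hW _).2 ⟨?_, ?_⟩⟩
    · simp
    · simp
  have hgt : 1 < Fintype.card (U ⊓ W : Submodule F (Fin 4 → F)) := by
    rw [Fintype.one_lt_card_iff]
    refine ⟨⟨_, he0W⟩, 0, ?_⟩
    intro h
    have h1 := congrArg (fun u : (U ⊓ W : Submodule F (Fin 4 → F)) => u.1 0) h
    simp at h1
  have hi2 : Module.finrank F (U ⊓ W : Submodule F (Fin 4 → F)) ≤ 2 := by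
    by_contra hcon
    push Not at hcon
    have h1 : q ^ 3 ≤ q ^ Module.finrank F (U ⊓ W : Submodule F (Fin 4 → F)) :=
      Nat.pow_le_pow_right (by omega) hcon
    rw [← hcUW] at h1
    omega
  have hi1 : 1 ≤ Module.finrank F (U ⊓ W : Submodule F (Fin 4 → F)) := by
    by_contra hcon
    have h0 : Module.finrank F (U ⊓ W : Submodule F (Fin 4 → F)) = 0 := by omega
    rw [hcUW, h0] at hgt
    simp at hgt
  -- counting
  have hB : (univ.filter fun u : Fin 4 → F => u ∈ U ∧ u ≠ 0).card + 1 = Fintype.card U := by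
    have h1 : Fintype.card U = (univ.filter fun u : Fin 4 → F => u ∈ U).card := by
      rw [← Fintype.card_subtype]
    have h2 : (univ.filter fun u : Fin 4 → F => u ∈ U).erase 0 =
        univ.filter fun u : Fin 4 → F => u ∈ U ∧ u ≠ 0 := by
      ext u
      simp only [mem_filter, mem_univ, true_and, mem_erase]
      tauto
    rw [h1, ← h2, card_erase_add_one (by simp)]
  have hA : ((univ.filter fun u : Fin 4 → F => u ∈ U ∧ u ≠ 0).filter
      fun u => u 2 = 0 ∧ u 3 = 0).card + 1 =
      Fintype.card (U ⊓ W : Submodule F (Fin 4 → F)) := by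
    have h1 : Fintype.card (U ⊓ W : Submodule F (Fin 4 → F)) =
        (univ.filter fun u : Fin 4 → F => u ∈ U ⊓ W).card := by
      rw [← Fintype.card_subtype]
    have h2 : (univ.filter fun u : Fin 4 → F => u ∈ U ⊓ W).erase 0 =
        (univ.filter fun u : Fin 4 → F => u ∈ U ∧ u ≠ 0).filter
          fun u => u 2 = 0 ∧ u 3 = 0 := by
      ext u
      simp only [mem_filter, mem_univ, true_and, mem_erase, Submodule.mem_inf, hW]
      tauto
    rw [h1, ← h2, card_erase_add_one (by simp)]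
  have hsplit := card_filter_add_card_filter_not (s := univ.filter fun u : Fin 4 → F =>
    u ∈ U ∧ u ≠ 0) (fun u => u 2 = 0 ∧ u 3 = 0)
  rw [sum_ite, sum_const, sum_const, nsmul_eq_mul, nsmul_eq_mul] at hsum
  have hkey : Fintype.card U + q ^ 2 = q ^ 2 * Fintype.card (U ⊓ W : Submodule F (Fin 4 → F)) +
      Fintype.card (U ⊓ W : Submodule F (Fin 4 → F)) := by
    zify
    have e1 : ((Fintype.card U : ℕ) : ℤ) =
        ((univ.filter fun u : Fin 4 → F => u ∈ U ∧ u ≠ 0).card : ℤ) + 1 := by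
      exact_mod_cast hB.symm
    have e2 : ((Fintype.card (U ⊓ W : Submodule F (Fin 4 → F)) : ℕ) : ℤ) =
        (((univ.filter fun u : Fin 4 → F => u ∈ U ∧ u ≠ 0).filter
          fun u => u 2 = 0 ∧ u 3 = 0).card : ℤ) + 1 := by
      exact_mod_cast hA.symm
    have e3 : (((univ.filter fun u : Fin 4 → F => u ∈ U ∧ u ≠ 0).filter
          fun u => u 2 = 0 ∧ u 3 = 0).card : ℤ) +
        (((univ.filter fun u : Fin 4 → F => u ∈ U ∧ u ≠ 0).filter
          fun u => ¬ (u 2 = 0 ∧ u 3 = 0)).card : ℤ) =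
        ((univ.filter fun u : Fin 4 → F => u ∈ U ∧ u ≠ 0).card : ℤ) := by
      exact_mod_cast hsplit
    rw [e1, e2, ← e3]
    linear_combination -hsum
  rw [hcU, hcUW] at hkey
  have hj : Module.finrank F U = 4 := pow_sol (by omega) hi1 hi2 hkey
  apply Submodule.eq_top_of_finrank_eq
  rw [hj]
  simp

end Pool.CND
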